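import Mathlib
import Pool.Agent.R675.PQ.Fld2
import Pool.Agent.Y920.ETC.GalH
import Pool.Agent.Y620.ET.Extv
import Pool.Agent.Y620.ET.Res
import Pool.Agent.Y37.ET.Max2

set_option autoImplicit false

/-! # MP_600e55_nt: valuations and partitions of `F*/±F*²`, `p = 2`

Let `F` be a field of characteristic `≠ 2` with finitely many square classes.  Suppose that
`F*/±F*²` has a partition into subgroups, none of index one or two, such that `x` and `1 + x` lie in
the same part for all `x ∉ ±F*²`, and such that one part contains all sums of two squares (unless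
`-1` is a square).  Then `F` has a valuation ring `O` with `2 ∈ O*`, `1 + m ⊆ F*²` and
`O* F*² ≠ F*`, and the maximal pro-2 Galois group of `F` is the decomposition group of a valuation
with nontrivial inertia.  Conversely, a valuation ring with `2 ∈ O*`, `1 + m ⊆ F*²` such that
`O* F*²` does not have index one or two gives such a partition if there are at least sixteen square
classes.

Proof in outline.  The partition is transferred to the quaternionic structure of `F`.  Let `K₀` be
the part with `-1` and its value group, `a ∈ K₀`, `b ∉ K₀` not in `±F*²`, and consider the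
quaternion algebra `t = (a,b)`.  By the common slot property `a` is the only slot of `t` in `K₀`,
`t ≠ (e,e)` for all `e`, and different slots of `t` have independent value groups.  By the
friendship theorem at most one slot of `t` is not rigid, so `a` or `b` is rigid, and there is a
birigid element.  Applied to the subgroup of the elements which are not birigid, this shows that
they lie in one part; this part has index at least four, and the theorem of Ware and
Arason, Elman and Jacob gives the valuation ring. -/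

namespace Pool.Agent.Results.MP_600e55_nt.SquareClassPartitions

open Pool.Agent.H315R3.ETC Pool.Agent.TH188.ET Pool.Agent.Y920.ETC Pool.Agent.R675.PQ

/-- the group of squares of `F*` -/
def squares (F : Type) [Field F] : Subgroup Fˣ := (powMonoidHom 2 : Fˣ →* Fˣ).range

/-- `K` is the compositum of the finite Galois extensions of `F` of 2-power degree -/
def IsMaximalTwoExtension {F : Type} [Field F] (K : IntermediateField F (AlgebraicClosure F)) :
    Prop :=
  K = sSup {L : IntermediateField F (AlgebraicClosure F) |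
    FiniteDimensional F L ∧ IsGalois F L ∧ ∃ k : ℕ, Module.finrank F L = 2 ^ k}

/-- `H` is the decomposition group in `Gal(K/F)` of a valuation of `K`, and the inertia group is
not trivial -/
def IsDecompositionGroup {F : Type} [Field F] {K : IntermediateField F (AlgebraicClosure F)}
    (H : Subgroup (↥K ≃ₐ[F] ↥K)) : Prop :=
  ∃ (Γ : Type) (_ : LinearOrderedCommGroupWithZero Γ) (w : Valuation K Γ),
    (∀ σ : ↥K ≃ₐ[F] ↥K, σ ∈ H ↔ ∀ x : ↥K, (w (σ x) ≤ 1 ↔ w x ≤ 1)) ∧
    ∃ σ ∈ H, σ ≠ 1 ∧ ∀ x : ↥K, w x ≤ 1 → w (σ x - x) < 1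

/-- `G` is the free pro-2 product of its subgroups `H i` (for a pro-2 group `G` and closed
`H i`) -/
def IsFreeProduct {G : Type} [Group G] [TopologicalSpace G] {n : ℕ}
    (H : Fin n → Subgroup G) : Prop :=
  ∀ (P : Type) [Group P] [Finite P], (∃ k : ℕ, Nat.card P = 2 ^ k) →
    ∀ φ : (i : Fin n) → (H i →* P), (∀ i, IsOpen ((φ i).ker : Set (H i))) →
      ∃! ψ : G →* P, IsOpen (ψ.ker : Set G) ∧ ∀ i, ∀ x : H i, ψ (x : G) = φ i x

/-- the conclusion of Q1 for `p = 2`: `Gal(K/F)` is the free pro-2 product of finitely many closed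
subgroups of type (i), (ii) or (iii) -/
def ConclusionOfQ1 {F : Type} [Field F] (K : IntermediateField F (AlgebraicClosure F)) : Prop :=
  ∃ (n : ℕ) (H : Fin n → Subgroup (↥K ≃ₐ[F] ↥K)),
    (∀ i, IsClosed (H i : Set (↥K ≃ₐ[F] ↥K))) ∧ IsFreeProduct H ∧
    ∀ i, Nonempty (H i ≃ₜ* Multiplicative (PadicInt 2)) ∨ IsDecompositionGroup (H i) ∨
      Nat.card (H i) = 2

/-- `P` is a partition of `F*/±F*²` into proper subgroups: the members of `P` are subgroups
`K ≠ F*` of `F*` containing `F*²` and `-1`, they cover `F*`, and any two of them meet in `±F*²` -/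
structure IsPartition (F : Type) [Field F] (P : Set (Subgroup Fˣ)) : Prop where
  le : ∀ K ∈ P, squares F ≤ K
  neg_mem : ∀ K ∈ P, (-1 : Fˣ) ∈ K
  ne_top : ∀ K ∈ P, K ≠ ⊤
  cover : ∀ x : Fˣ, ∃ K ∈ P, x ∈ K
  meet : ∀ K ∈ P, ∀ K' ∈ P, K ≠ K' → ∀ x : Fˣ, x ∈ K → x ∈ K' →
    x ∈ squares F ∨ -x ∈ squares F

/-- if `x ∉ ±F*²` lies in a part, so does `1 + x`; and if `-1` is not a square, then one part
contains all nonzero sums of two squares -/
def RespectsSums {F : Type} [Field F] (P : Set (Subgroup Fˣ)) : Prop :=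
  (∀ x v : Fˣ, x ∉ squares F → -x ∉ squares F → (v : F) = 1 + x → ∀ K ∈ P, x ∈ K → v ∈ K) ∧
  ((-1 : Fˣ) ∈ squares F ∨
    ∃ K ∈ P, ∀ (x y : F) (v : Fˣ), (v : F) = x ^ 2 + y ^ 2 → v ∈ K)

/-- `2` is a unit of `O`, `1 + m ⊆ F*²`, and `O* F*² ≠ F*` -/
structure IsCompatible {F : Type} [Field F] (O : ValuationSubring F) : Prop where
  inv_mem : (2 : F)⁻¹ ∈ O
  one_add : ∀ x : F, x ∈ O → x⁻¹ ∉ O → IsSquare (1 + x)
  ne_top : O.unitGroup ⊔ squares F ≠ ⊤

theorem result (F : Type) [Field F] (h2 : (2 : F) ≠ 0) (hfin : (squares F).index ≠ 0) :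
    -- from partitions to valuation rings and Galois groups
    (∀ P : Set (Subgroup Fˣ), IsPartition F P → RespectsSums P → (∀ K ∈ P, K.index ≠ 2) →
      (∃ O : ValuationSubring F, IsCompatible O) ∧
      ∀ K : IntermediateField F (AlgebraicClosure F), IsMaximalTwoExtension K →
        IsDecompositionGroup (⊤ : Subgroup (↥K ≃ₐ[F] ↥K)) ∧ ConclusionOfQ1 K) ∧
    -- from valuation rings to partitions
    (16 ≤ (squares F).index → ∀ O : ValuationSubring F, IsCompatible O →
      (O.unitGroup ⊔ squares F).index ≠ 2 →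
      ∃ P : Set (Subgroup Fˣ), IsPartition F P ∧ RespectsSums P ∧ ∀ K ∈ P, K.index ≠ 2) := by
  refine ⟨?_, ?_⟩
  · intro P hP hs hidx
    obtain ⟨O, hO, c, hc⟩ := val_of_partition h2 hfin
      (P := P) ⟨hP.le, hP.neg_mem, hP.ne_top, hP.cover, hP.meet, hs.1, hs.2⟩ hidx
    refine ⟨⟨O, hO.1, hO.2.2, ?_⟩, ?_⟩
    · intro e
      have h3 : c ∈ O.unitGroup ⊔ squares F := by rw [e]; exact Subgroup.mem_top c
      obtain ⟨u, hu, t, ⟨f, rfl⟩, hut⟩ := Subgroup.mem_sup.1 h3
      refine hc f⁻¹ ?_
      have h4 : c * f⁻¹ ^ 2 = u := by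
        rw [← hut, inv_pow]
        exact mul_inv_cancel_right u (f ^ 2)
      rw [h4]
      refine ⟨(O.valuation_le_one_iff _).1 ((ValuationSubring.mem_unitGroup_iff _ _).1 hu).le, ?_⟩
      refine (O.valuation_le_one_iff _).1 ?_
      rw [Units.val_inv_eq_inv_val, map_inv₀, (ValuationSubring.mem_unitGroup_iff _ _).1 hu,
        inv_one]
    · intro K hK
      have hD : DecInert F K := decInert Pool.Agent.Y620.ET.t_EXTV Pool.Agent.Y37.ET.t_MAX2 F h2 O
        hO ⟨c, hc⟩ K hK
      refine ⟨?_, ?_⟩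
      · obtain ⟨Γ, hΓ, w, hw, σ, hσ, hσw⟩ := hD
        exact ⟨Γ, hΓ, w, fun τ => ⟨fun _ x => hw τ x, fun _ => trivial⟩, σ, trivial, hσ, hσw⟩
      · obtain ⟨n, H, h3, h4, h5⟩ := efratTwo F K hD
        refine ⟨n, H, h3, h4, fun i => ?_⟩
        rcases h5 i with h6 | h6 | h6
        · exact Or.inl h6
        · exact Or.inr (Or.inl h6)
        · exact Or.inr (Or.inr h6.2)
  · intro h16 O hO hidx
    obtain ⟨P, hP, h3⟩ := partition_of_val Pool.Agent.Y620.ET.t_RES h2 h16 O
      ⟨hO.inv_mem, h2, hO.one_add⟩ (fun e => hO.ne_top (Subgroup.index_eq_one.1 e)) hidx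
    exact ⟨P, ⟨hP.le, hP.neg, hP.ne_top, hP.cover, hP.meet⟩, ⟨hP.sums, hP.two⟩, h3⟩

end Pool.Agent.Results.MP_600e55_nt.SquareClassPartitions
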