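import Mathlib
import Pool.Agent.R675.TP.Part
import Pool.Agent.Y98.EP.PCD
import Pool.Agent.Y447.EP.WB
import Pool.Agent.Y232.EP.Coarse
import Pool.Agent.Y86.EP.Kum
import Pool.Agent.Y279.EP.Up
import Pool.Agent.Y925.EP.Tower
import Pool.Agent.Y419.EP.Inert
import Pool.Agent.Y469.EP.Max
import Pool.Agent.Y349.EP.Symm
import Pool.Agent.Y349.EP.NG

set_option autoImplicit false

/-! # MP_600e55_nt: valuations and partitions of `F*/F*^p`, `p` odd

Let `F*/F*^p` be finite and not of order `p`.  There is a valuation ring `O` of `F` with `p ∈ O*`,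
`1 + m ⊆ F*^p` and `O* F*^p ≠ F*` if and only if `F*/F*^p` has a partition into proper subgroups
such that `x` and `1 + x` lie in the same part for all `x ∉ F*^p`.  In this case the conclusion of
the conjecture holds: the maximal pro-`p` Galois group is the decomposition group of a valuation
with nontrivial inertia. -/

namespace Pool.Agent.Results.MP_600e55_nt.SymbolPartitions

open Pool.Agent.Y920.EP

/-- the group of `p`-th powers of `F*` -/
def powers (F : Type) [Field F] (p : ℕ) : Subgroup Fˣ := (powMonoidHom p : Fˣ →* Fˣ).range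

open Polynomial in
/-- the norms to `F` of the units of the algebra `F[X]/(X^p - a)`: the norm group of the field
`F(a^(1/p))` if `a` is not a `p`-th power -/
noncomputable def normGroup {F : Type} [Field F] (p : ℕ) (a : Fˣ) : Subgroup Fˣ :=
  (Units.map (Algebra.norm F : AdjoinRoot (X ^ p - C (a : F)) →* F)).range

/-- `K` is the compositum of the finite Galois extensions of `F` of `p`-power degree -/
def IsMaximalPExtension (p : ℕ) {F : Type} [Field F]
    (K : IntermediateField F (AlgebraicClosure F)) : Prop :=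
  K = sSup {L : IntermediateField F (AlgebraicClosure F) |
    FiniteDimensional F L ∧ IsGalois F L ∧ ∃ k : ℕ, Module.finrank F L = p ^ k}

/-- `H` is the decomposition group in `Gal(K/F)` of a valuation of `K`, and the inertia group is
not trivial -/
def IsDecompositionGroup {F : Type} [Field F] {K : IntermediateField F (AlgebraicClosure F)}
    (H : Subgroup (↥K ≃ₐ[F] ↥K)) : Prop :=
  ∃ (Γ : Type) (_ : LinearOrderedCommGroupWithZero Γ) (w : Valuation K Γ),
    (∀ σ : ↥K ≃ₐ[F] ↥K, σ ∈ H ↔ ∀ x : ↥K, (w (σ x) ≤ 1 ↔ w x ≤ 1)) ∧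
    ∃ σ ∈ H, σ ≠ 1 ∧ ∀ x : ↥K, w x ≤ 1 → w (σ x - x) < 1

/-- `G` is the free pro-`p` product of its subgroups `H i` (for a pro-`p` group `G` and closed
`H i`) -/
def IsFreeProduct (p : ℕ) {G : Type} [Group G] [TopologicalSpace G] {n : ℕ}
    (H : Fin n → Subgroup G) : Prop :=
  ∀ (P : Type) [Group P] [Finite P], (∃ k : ℕ, Nat.card P = p ^ k) →
    ∀ φ : (i : Fin n) → (H i →* P), (∀ i, IsOpen ((φ i).ker : Set (H i))) →
      ∃! ψ : G →* P, IsOpen (ψ.ker : Set G) ∧ ∀ i, ∀ x : H i, ψ (x : G) = φ i x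

/-- the conclusion of Q1: `Gal(K/F)` is the free pro-`p` product of finitely many closed subgroups
of type (i), (ii) or (iii) -/
def ConclusionOfQ1 (p : ℕ) [Fact p.Prime] {F : Type} [Field F]
    (K : IntermediateField F (AlgebraicClosure F)) : Prop :=
  ∃ (n : ℕ) (H : Fin n → Subgroup (↥K ≃ₐ[F] ↥K)),
    (∀ i, IsClosed (H i : Set (↥K ≃ₐ[F] ↥K))) ∧ IsFreeProduct p H ∧
    ∀ i, Nonempty (H i ≃ₜ* Multiplicative (PadicInt p)) ∨ IsDecompositionGroup (H i) ∨
      (p = 2 ∧ Nat.card (H i) = 2)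

/-- `P` is a partition of `F*/F*^p` into proper subgroups: the members of `P` are subgroups
`K ≠ F*` of `F*` containing `F*^p`, they cover `F*`, and any two of them meet in `F*^p` -/
structure IsPartition (F : Type) [Field F] (p : ℕ) (P : Set (Subgroup Fˣ)) : Prop where
  le : ∀ K ∈ P, powers F p ≤ K
  ne_top : ∀ K ∈ P, K ≠ ⊤
  cover : ∀ x : Fˣ, ∃ K ∈ P, x ∈ K
  inf : ∀ K ∈ P, ∀ K' ∈ P, K ≠ K' → K ⊓ K' = powers F p

/-- if `x ∉ F*^p` lies in a part, so does `1 + x` -/
def RespectsSums {F : Type} [Field F] (p : ℕ) (P : Set (Subgroup Fˣ)) : Prop :=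
  ∀ x v : Fˣ, x ∉ powers F p → (v : F) = 1 + x → ∀ K ∈ P, x ∈ K → v ∈ K

/-- the symbols `(a,b)`, `a, b ∉ F*^p`, vanish only if `a` and `b` lie in the same part -/
def RespectsSymbols {F : Type} [Field F] (p : ℕ) (P : Set (Subgroup Fˣ)) : Prop :=
  ∀ a : Fˣ, a ∉ powers F p → ∀ K ∈ P, a ∈ K → normGroup p a ≤ K

/-- `p` is a unit of `O`, `1 + m ⊆ F*^p`, and `O* F*^p ≠ F*` -/
structure IsCompatible {F : Type} [Field F] (p : ℕ) (O : ValuationSubring F) : Prop where
  inv_mem : (p : F)⁻¹ ∈ O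
  one_add : ∀ x : F, x ∈ O → x⁻¹ ∉ O → ∃ y : F, y ^ p = 1 + x
  ne_top : O.unitGroup ⊔ powers F p ≠ ⊤

theorem result (p : ℕ) [Fact p.Prime] (hp2 : p ≠ 2) (F : Type) [Field F]
    (hζ : ∃ ζ : F, IsPrimitiveRoot ζ p) (hfin : (powers F p).index ≠ 0) :
    -- from partitions to valuation rings and Galois groups
    (∀ P : Set (Subgroup Fˣ), IsPartition F p P → RespectsSums p P →
      (∃ K ∈ P, ∃ O : ValuationSubring F, O.unitGroup ≤ K ∧ IsCompatible p O) ∧
      ∀ K : IntermediateField F (AlgebraicClosure F), IsMaximalPExtension p K →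
        IsDecompositionGroup (⊤ : Subgroup (↥K ≃ₐ[F] ↥K)) ∧ ConclusionOfQ1 p K) ∧
    -- the characterisation
    ((powers F p).index ≠ p → List.TFAE
      [∃ O : ValuationSubring F, IsCompatible p O,
       ∃ P : Set (Subgroup Fˣ), IsPartition F p P ∧ RespectsSums p P,
       ∃ P : Set (Subgroup Fˣ), IsPartition F p P ∧ RespectsSymbols p P]) := by
  have hp : p.Prime := Fact.out
  have hng := Pool.Agent.Y349.EP.t_NG
  have hsy := Pool.Agent.Y349.EP.t_SYMM
  have hG : AllG := ⟨Pool.Agent.Y86.EP.t_KUM, Pool.Agent.Y279.EP.t_UP,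
    Pool.Agent.Y925.EP.t_TOWER', Pool.Agent.Y419.EP.t_INERT', Pool.Agent.Y469.EP.t_MAX'⟩
  have hpF : (p : F) ≠ 0 := by
    obtain ⟨ζ, hζ⟩ := hζ
    have : NeZero p := ⟨hp.ne_zero⟩
    exact hζ.neZero'.ne
  have hval : ∀ P : Set (Subgroup Fˣ), IsPartition F p P → RespectsSums p P →
      ∃ K ∈ P, ∃ O : ValuationSubring F, O.unitGroup ≤ K ∧ IsCompatible p O := by
    intro P hP hs
    have hP' : Pool.Agent.R675.TP.IsPart (pwG F p) P := ⟨hP.le, hP.ne_top, hP.cover, hP.inf⟩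
    obtain ⟨K, hK, O, h1, h2⟩ := Pool.Agent.R675.TP.val_of_part Pool.Agent.Y98.EP.t_PCD
      Pool.Agent.Y447.EP.t_WB' Pool.Agent.Y232.EP.t_COARSE' p hp hp2 F hpF hP' (by
        intro K hK h0
        apply hfin
        have h3 := Subgroup.relIndex_mul_index (hP.le K hK)
        change (powers F p).relIndex K = 0 at h0
        rw [h0, zero_mul] at h3
        exact h3.symm) hs
    refine ⟨K, hK, O, h1, h2.1, h2.2.2, fun e => hP.ne_top K hK ?_⟩
    rw [eq_top_iff, ← e]
    exact sup_le h1 (hP.le K hK)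
  refine ⟨fun P hP hs => ⟨hval P hP hs, fun K hK => ?_⟩, fun hidx => ?_⟩
  · obtain ⟨-, -, O, -, hO⟩ := hval P hP hs
    obtain ⟨c, hc⟩ : ∃ c : Fˣ, c ∉ O.unitGroup ⊔ powers F p := by
      by_contra hc
      push Not at hc
      exact hO.ne_top (eq_top_iff.2 fun c _ => hc c)
    have hD : DecInert F K := decInert hG p hp hp2 F hζ O ⟨hO.inv_mem, hpF, hO.one_add⟩
      ⟨c, ?_⟩ K hK
    · refine ⟨?_, efratP p F K hD⟩
      obtain ⟨Γ, hΓ, w, hw, σ, hσ, hσw⟩ := hD
      exact ⟨Γ, hΓ, w, fun τ => ⟨fun _ x => hw τ x, fun _ => trivial⟩, σ, trivial, hσ, hσw⟩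
    · rintro f ⟨h6, h7⟩
      apply hc
      have h8 : c * f ^ p ∈ O.unitGroup := Pool.Agent.R675.TP.mem_unitGroup_of h6 h7
      have h9 : f ^ p ∈ powers F p := ⟨f, rfl⟩
      have h10 := mul_mem (show c * f ^ p ∈ O.unitGroup ⊔ powers F p from
        Subgroup.mem_sup_left h8)
        (inv_mem (show f ^ p ∈ O.unitGroup ⊔ powers F p from Subgroup.mem_sup_right h9))
      rwa [mul_inv_cancel_right] at h10
  · tfae_have 1 → 3 := by
      rintro ⟨O, hO⟩
      obtain ⟨P, hP, h1⟩ := Pool.Agent.R675.TP.part_of_val hng hsy p hp hp2 F hζ hidx O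
        ⟨hO.inv_mem, hpF, hO.one_add⟩ hO.ne_top
      exact ⟨P, ⟨hP.le, hP.ne_top, hP.cover, hP.inf⟩, h1⟩
    tfae_have 3 → 2 := by
      rintro ⟨P, hP, h1⟩
      exact ⟨P, hP, fun x v hx hv K hK hxK => h1 x hx K hK hxK ((hng p hp hp2 F).2.1 x v hv)⟩
    tfae_have 2 → 1 := by
      rintro ⟨P, hP, hs⟩
      obtain ⟨-, -, O, -, hO⟩ := hval P hP hs
      exact ⟨O, hO⟩
    tfae_finish

end Pool.Agent.Results.MP_600e55_nt.SymbolPartitions
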