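import Mathlib
import Pool.Agent.R675.TP.Fld
import Pool.Agent.R675.TP.Cls
import Pool.Agent.Y98.EP.PCD
import Pool.Agent.Y447.EP.WB
import Pool.Agent.Y232.EP.Coarse
import Pool.Agent.Y86.EP.Kum
import Pool.Agent.Y279.EP.Up
import Pool.Agent.Y925.EP.Tower
import Pool.Agent.Y419.EP.Inert
import Pool.Agent.Y469.EP.Max
import Pool.Agent.Y349.EP.Symm
import Pool.Agent.Y349.EP.NG

set_option autoImplicit false

/-! # MP_600e55_nt: Efrat's conjecture for fields with transitive symbols, `p` odd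

`N(a)` denotes the norm group of `F(a^(1/p))`.  The fields such that `b ∈ N(a)` and `c ∈ N(b)`
imply `c ∈ N(a)`, for all `a, b` which are not `p`-th powers, are classified: all `N(a)` are `F*`,
or `F` has a valuation ring which determines all `N(a)`.  In the second case the conclusion of the
conjecture holds: the maximal pro-`p` Galois group is the decomposition group of a valuation. -/

namespace Pool.Agent.Results.MP_600e55_nt.TransitiveSymbols

open Pool.Agent.Y920.EP

/-- the group of `p`-th powers of `F*` -/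
def powers (F : Type) [Field F] (p : ℕ) : Subgroup Fˣ := (powMonoidHom p : Fˣ →* Fˣ).range

open Polynomial in
/-- the norms to `F` of the units of the algebra `F[X]/(X^p - a)`: the norm group of the field
`F(a^(1/p))` if `a` is not a `p`-th power -/
noncomputable def normGroup {F : Type} [Field F] (p : ℕ) (a : Fˣ) : Subgroup Fˣ :=
  (Units.map (Algebra.norm F : AdjoinRoot (X ^ p - C (a : F)) →* F)).range

/-- `K` is the compositum of the finite Galois extensions of `F` of `p`-power degree -/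
def IsMaximalPExtension (p : ℕ) {F : Type} [Field F]
    (K : IntermediateField F (AlgebraicClosure F)) : Prop :=
  K = sSup {L : IntermediateField F (AlgebraicClosure F) |
    FiniteDimensional F L ∧ IsGalois F L ∧ ∃ k : ℕ, Module.finrank F L = p ^ k}

/-- `H` is the decomposition group in `Gal(K/F)` of a valuation of `K`, and the inertia group is
not trivial -/
def IsDecompositionGroup {F : Type} [Field F] {K : IntermediateField F (AlgebraicClosure F)}
    (H : Subgroup (↥K ≃ₐ[F] ↥K)) : Prop :=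
  ∃ (Γ : Type) (_ : LinearOrderedCommGroupWithZero Γ) (w : Valuation K Γ),
    (∀ σ : ↥K ≃ₐ[F] ↥K, σ ∈ H ↔ ∀ x : ↥K, (w (σ x) ≤ 1 ↔ w x ≤ 1)) ∧
    ∃ σ ∈ H, σ ≠ 1 ∧ ∀ x : ↥K, w x ≤ 1 → w (σ x - x) < 1

/-- `G` is the free pro-`p` product of its subgroups `H i` (for a pro-`p` group `G` and closed
`H i`) -/
def IsFreeProduct (p : ℕ) {G : Type} [Group G] [TopologicalSpace G] {n : ℕ}
    (H : Fin n → Subgroup G) : Prop :=
  ∀ (P : Type) [Group P] [Finite P], (∃ k : ℕ, Nat.card P = p ^ k) →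
    ∀ φ : (i : Fin n) → (H i →* P), (∀ i, IsOpen ((φ i).ker : Set (H i))) →
      ∃! ψ : G →* P, IsOpen (ψ.ker : Set G) ∧ ∀ i, ∀ x : H i, ψ (x : G) = φ i x

/-- the conclusion of Q1: `Gal(K/F)` is the free pro-`p` product of finitely many closed subgroups
of type (i), (ii) or (iii) -/
def ConclusionOfQ1 (p : ℕ) [Fact p.Prime] {F : Type} [Field F]
    (K : IntermediateField F (AlgebraicClosure F)) : Prop :=
  ∃ (n : ℕ) (H : Fin n → Subgroup (↥K ≃ₐ[F] ↥K)),
    (∀ i, IsClosed (H i : Set (↥K ≃ₐ[F] ↥K))) ∧ IsFreeProduct p H ∧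
    ∀ i, Nonempty (H i ≃ₜ* Multiplicative (PadicInt p)) ∨ IsDecompositionGroup (H i) ∨
      (p = 2 ∧ Nat.card (H i) = 2)

/-- the norm groups are finite modulo `p`-th powers -/
def FiniteNormGroups (F : Type) [Field F] (p : ℕ) : Prop :=
  ∀ a : Fˣ, a ∉ powers F p → (powers F p).relIndex (normGroup p a) ≠ 0

/-- transitivity: `b ∈ N(a)` and `c ∈ N(b)` imply `c ∈ N(a)` -/
def SymbolsTransitive (F : Type) [Field F] (p : ℕ) : Prop :=
  ∀ a b c : Fˣ, a ∉ powers F p → b ∉ powers F p → b ∈ normGroup p a → c ∈ normGroup p b →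
    c ∈ normGroup p a

/-- the group `O* F*^p` of the elements which are units of `O` up to `p`-th powers -/
noncomputable def unitClasses {F : Type} [Field F] (p : ℕ) (O : ValuationSubring F) : Subgroup Fˣ :=
  O.unitGroup ⊔ powers F p

/-- `p` is a unit of `O`, `1 + m ⊆ F*^p`, `O* F*^p ≠ F*`, and the norm groups are `O* F*^p` for
the elements of `O* F*^p` and `⟨a⟩ F*^p` for the elements `a` outside `O* F*^p` -/
structure DeterminesNorms {F : Type} [Field F] (p : ℕ) (O : ValuationSubring F) : Prop where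
  inv_mem : (p : F)⁻¹ ∈ O
  one_add : ∀ x : F, x ∈ O → x⁻¹ ∉ O → ∃ y : F, y ^ p = 1 + x
  ne_top : unitClasses p O ≠ ⊤
  unit : ∀ u : Fˣ, u ∉ powers F p → u ∈ unitClasses p O → normGroup p u = unitClasses p O
  ram : ∀ a : Fˣ, a ∉ unitClasses p O → normGroup p a = Subgroup.zpowers a ⊔ powers F p

theorem result (p : ℕ) [Fact p.Prime] (hp2 : p ≠ 2) (F : Type) [Field F]
    (hζ : ∃ ζ : F, IsPrimitiveRoot ζ p) (hfin : FiniteNormGroups F p) :
    -- the classification
    (SymbolsTransitive F p ↔ (∀ a : Fˣ, a ∉ powers F p → normGroup p a = ⊤) ∨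
      ∃ O : ValuationSubring F, DeterminesNorms p O) ∧
    -- norm groups with at most `p²` classes
    ((∀ a : Fˣ, a ∉ powers F p → (powers F p).relIndex (normGroup p a) ≤ p ^ 2) →
      SymbolsTransitive F p) ∧
    -- Galois groups
    (SymbolsTransitive F p → (∃ a : Fˣ, a ∉ powers F p ∧ normGroup p a ≠ ⊤) →
      ∀ K : IntermediateField F (AlgebraicClosure F), IsMaximalPExtension p K →
        IsDecompositionGroup (⊤ : Subgroup (↥K ≃ₐ[F] ↥K)) ∧ ConclusionOfQ1 p K) := by
  have hp : p.Prime := Fact.out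
  have hng := Pool.Agent.Y349.EP.t_NG
  have hsy := Pool.Agent.Y349.EP.t_SYMM
  have hG : AllG := ⟨Pool.Agent.Y86.EP.t_KUM, Pool.Agent.Y279.EP.t_UP,
    Pool.Agent.Y925.EP.t_TOWER', Pool.Agent.Y419.EP.t_INERT', Pool.Agent.Y469.EP.t_MAX'⟩
  have hcl := Pool.Agent.R675.TP.classify hng hsy Pool.Agent.Y98.EP.t_PCD
    Pool.Agent.Y447.EP.t_WB' Pool.Agent.Y232.EP.t_COARSE' p hp hp2 F hζ
  refine ⟨⟨fun htr => ?_, ?_⟩, fun h a b c ha hb =>
    Pool.Agent.R675.TP.tr_of_small hng hsy hp hp2 F hζ (fun a ha => ⟨hfin a ha, h a ha⟩) a b c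
      ha hb, fun htr hne K hK => ?_⟩
  · by_cases hne : ∃ a : Fˣ, a ∉ powers F p ∧ normGroup p a ≠ ⊤
    · obtain ⟨O, h1, h2, h3, h4⟩ := hcl hfin htr hne
      exact Or.inr ⟨O, h1.1, h1.2.2, h2, h3, h4⟩
    · left
      intro a ha
      by_contra hc
      exact hne ⟨a, ha, hc⟩
  · rintro (h | ⟨O, hO⟩)
    · intro a b c ha _ _ _
      rw [h a ha]
      trivial
    · exact Pool.Agent.R675.TP.trans_of hp F (unitClasses p O) le_sup_right hO.unit hO.ram
  · obtain ⟨O, h1, h2, -, -⟩ := hcl hfin htr hne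
    obtain ⟨c, hc⟩ : ∃ c : Fˣ, c ∉ unitClasses p O := by
      by_contra hc
      push Not at hc
      exact h2 (eq_top_iff.2 fun c _ => hc c)
    have hD : DecInert F K := decInert hG p hp hp2 F hζ O h1 ⟨c, ?_⟩ K hK
    · refine ⟨?_, efratP p F K hD⟩
      obtain ⟨Γ, hΓ, w, hw, σ, hσ, hσw⟩ := hD
      exact ⟨Γ, hΓ, w, fun τ => ⟨fun _ x => hw τ x, fun _ => trivial⟩, σ, trivial, hσ, hσw⟩
    · rintro f ⟨h6, h7⟩
      apply hc
      have h8 : c * f ^ p ∈ O.unitGroup := Pool.Agent.R675.TP.mem_unitGroup_of h6 h7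
      have h9 : f ^ p ∈ powers F p := ⟨f, rfl⟩
      have h10 := mul_mem (show c * f ^ p ∈ unitClasses p O from Subgroup.mem_sup_left h8)
        (inv_mem (show f ^ p ∈ unitClasses p O from Subgroup.mem_sup_right h9))
      rwa [mul_inv_cancel_right] at h10

end Pool.Agent.Results.MP_600e55_nt.TransitiveSymbols
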